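import Pool.Agent.R409.RF.Fac
import Pool.Agent.W187.UR.BelC

/-!
# The logarithm below the real segment, complex coefficients
-/

set_option autoImplicit false

namespace Pool.Agent.R409.RF

open Complex MeasureTheory Filter Topology Set
open Pool.Agent.W189.ML Pool.Agent.W189.LC Pool.Agent.W187.UR

/-- a logarithm in a thin rectangle around `[0, 2]` -/
theorem rectc {Q : ℂ → ℂ} (hQ : ∀ x ∈ Icc (0 : ℝ) 2, AnalyticAt ℂ Q (x : ℂ))
    (hQp : ∀ x ∈ Icc (0 : ℝ) 2, Q (x : ℂ) ≠ 0) :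
    ∃ δ > 0, ∃ M : ℝ, ∃ ℓ : ℂ → ℂ, 0 ≤ M ∧ ContinuousAt ℓ 2 ∧
      (∀ᶠ w in 𝓝 (2 : ℂ), exp (ℓ w) = Q w) ∧ exp (ℓ 0) = Q 0 ∧
      ∀ w : ℂ, 0 ≤ w.re → w.re ≤ 2 → |w.im| ≤ δ →
        ‖ℓ w - ℓ 0‖ ≤ M * ‖w‖ ∧ DifferentiableAt ℂ ℓ w := by
  set Kc : Set ℂ := (fun x : ℝ => (x : ℂ)) '' Icc 0 2 with hKc
  have hKcc : IsCompact Kc := isCompact_Icc.image (by fun_prop)
  have hKconv : Convex ℝ Kc := (convex_Icc (0 : ℝ) 2).linear_image Complex.ofRealLI.toLinearMap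
  set U : Set ℂ := {w | AnalyticAt ℂ Q w ∧ Q w ≠ 0} with hU
  have hUo : IsOpen U := by
    rw [isOpen_iff_mem_nhds]
    rintro w ⟨hw1, hw2⟩
    filter_upwards [hw1.eventually_analyticAt,
      hw1.continuousAt.eventually (isOpen_ne.mem_nhds hw2)] with v h3 h4
    exact ⟨h3, h4⟩
  have hKU : Kc ⊆ U := by
    rintro _ ⟨x, hx, rfl⟩
    exact ⟨hQ x hx, hQp x hx⟩
  obtain ⟨δ₂, hδ₂, hsub⟩ := hKcc.exists_cthickening_subset_open hUo hKU
  set W : Set ℂ := Metric.thickening δ₂ Kc with hW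
  have hWo : IsOpen W := Metric.isOpen_thickening
  have hWc : Convex ℝ W := hKconv.thickening δ₂
  have hWU : W ⊆ U := (Metric.thickening_subset_cthickening _ _).trans hsub
  have hmemK : ∀ x ∈ Icc (0 : ℝ) 2, (x : ℂ) ∈ W := fun x hx =>
    Metric.self_subset_thickening hδ₂ _ ⟨x, hx, rfl⟩
  have h0W : (0 : ℂ) ∈ W := by
    have := hmemK 0 ⟨le_rfl, by norm_num⟩
    simpa using this
  have h2W : (2 : ℂ) ∈ W := by
    have := hmemK 2 ⟨by norm_num, le_rfl⟩
    simpa using this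
  obtain ⟨ℓ, hℓd, hℓ⟩ := Pool.Agent.Helper242.RK.exists_log hWc hWo ⟨0, h0W⟩ (f := Q)
    (fun w hw => (hWU hw).1.differentiableAt.differentiableWithinAt) (fun w hw => (hWU hw).2)
  have hℓat : ∀ w ∈ W, DifferentiableAt ℂ ℓ w := fun w hw => (hℓd w hw).differentiableAt
    (hWo.mem_nhds hw)
  -- the smaller neighbourhood
  set δ : ℝ := δ₂ / 2 with hδ
  have hδ0 : 0 < δ := by positivity
  have hcc : IsCompact (Metric.cthickening δ Kc) := hKcc.cthickening
  have hcW : Metric.cthickening δ Kc ⊆ W :=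
    Metric.cthickening_subset_thickening' hδ₂ (by rw [hδ]; linarith) _
  have hlc : ContinuousOn (dslope ℓ 0) (Metric.cthickening δ Kc) := by
    intro w hw
    by_cases h : w = 0
    · rw [h]
      exact (continuousAt_dslope_same.2 (hℓat 0 h0W)).continuousWithinAt
    · exact ((continuousAt_dslope_of_ne h).2 (hℓat w (hcW hw)).continuousAt).continuousWithinAt
  obtain ⟨M, hM⟩ := hcc.exists_bound_of_continuousOn hlc
  have hmem : ∀ w : ℂ, 0 ≤ w.re → w.re ≤ 2 → |w.im| ≤ δ → w ∈ Metric.cthickening δ Kc := by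
    intro w h3 h4 h5
    refine Metric.mem_cthickening_of_dist_le w (w.re : ℂ) δ Kc ⟨w.re, ⟨h3, h4⟩, rfl⟩ ?_
    rw [Complex.dist_eq]
    have : w - (w.re : ℂ) = (w.im : ℂ) * I := by
      apply Complex.ext <;> simp
    rw [this, norm_mul, Complex.norm_I, mul_one, Complex.norm_real, Real.norm_eq_abs]
    exact h5
  refine ⟨δ, hδ0, |M|, ℓ, abs_nonneg _, (hℓat 2 h2W).continuousAt, ?_, hℓ 0 h0W,
    fun w h3 h4 h5 => ⟨?_, hℓat w (hcW (hmem w h3 h4 h5))⟩⟩
  · filter_upwards [hWo.mem_nhds h2W] with w hw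
    exact hℓ w hw
  · have h6 := hM w (hmem w h3 h4 h5)
    have h7 := sub_smul_dslope ℓ 0 w
    rw [sub_zero] at h7
    rw [← h7, norm_smul, mul_comm]
    exact mul_le_mul_of_nonneg_right (h6.trans (le_abs_self _)) (norm_nonneg _)

/-- two logarithms near `2` -/
theorem branchc {L ℓ : ℂ → ℂ} (hL : ContinuousAt L 2) (hℓ : ContinuousAt ℓ 2)
    (h : ∀ᶠ w in 𝓝 (2 : ℂ), exp (L w) = exp (ℓ w)) :
    ∃ k : ℤ, ∃ δ > 0, ∀ w : ℂ, dist w 2 < δ → L w = ℓ w + k * (2 * Real.pi * I) := by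
  obtain ⟨k, hk⟩ := Complex.exp_eq_exp_iff_exists_int.1 h.self_of_nhds
  set d : ℂ → ℂ := fun w => L w - ℓ w - k * (2 * Real.pi * I) with hd
  have hdc : ContinuousAt d 2 := (hL.sub hℓ).sub continuousAt_const
  have hd2 : d 2 = 0 := by
    rw [hd]
    simp only
    rw [hk]
    ring
  have hexp : ∀ᶠ w in 𝓝 (2 : ℂ), exp (d w) = 1 := by
    filter_upwards [h] with w hw
    rw [hd]
    simp only
    rw [Complex.exp_sub, Complex.exp_sub, hw, div_self (Complex.exp_ne_zero _),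
      Complex.exp_int_mul_two_pi_mul_I, div_one]
  have hsmall : ∀ᶠ w in 𝓝 (2 : ℂ), ‖d w‖ < 1 := by
    have := hdc.norm
    have h3 : ‖d 2‖ < 1 := by rw [hd2]; simp
    exact this.eventually (gt_mem_nhds h3)
  have hz : ∀ᶠ w in 𝓝 (2 : ℂ), d w = 0 := by
    filter_upwards [hexp, hsmall] with w e1 e2
    obtain ⟨n, hn⟩ := Complex.exp_eq_one_iff.1 e1
    by_cases hn0 : n = 0
    · rw [hn, hn0]; simp
    · exfalso
      rw [hn] at e2
      rw [norm_mul, norm_mul, norm_mul, Complex.norm_I, Complex.norm_real, Real.norm_eq_abs,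
        abs_of_pos Real.pi_pos, Complex.norm_intCast] at e2
      have : (1 : ℝ) ≤ |(n : ℝ)| := by
        have := Int.one_le_abs hn0
        exact_mod_cast this
      have h3 := Real.pi_gt_three
      norm_num at e2
      nlinarith
  obtain ⟨δ, hδ, h3⟩ := Metric.eventually_nhds_iff.1 hz
  refine ⟨k, δ, hδ, fun w hw => ?_⟩
  have := h3 hw
  rw [hd] at this
  simp only at this
  linear_combination this

/-- **the logarithm below the segment** -/
theorem belx (Φ g : ℂ → ℂ)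
    (h1 : ∀ x ∈ Icc (0 : ℝ) 2, MeromorphicAt Φ (x : ℂ))
    (h2 : ∀ x ∈ Icc (0 : ℝ) 2, meromorphicOrderAt Φ (x : ℂ) ≠ ⊤)
    (h3 : ∀ w : ℂ, 1 < w.re → AnalyticAt ℂ g w)
    (h4 : ∀ w : ℂ, 1 < w.re → Φ w = exp (g w)) (m : ℤ) (hm : meromorphicOrderAt Φ 0 = m) :
    ∃ (η B : ℝ) (L : ℂ → ℂ) (r₀ : ℂ), Bel m r₀ η B L ∧
      (∀ w : ℂ, w.re = 2 → -η ≤ w.im → w.im < 0 → g w = L w) ∧
      exp r₀ = meromorphicTrailingCoeffAt Φ 0 := by
  obtain ⟨Z, n, Q, hZ, hQa, hQ0, hQ2, htr⟩ := facx Φ g h1 h2 h3 h4 m hm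
  obtain ⟨δ₁, hδ₁, M, ℓ, hM0, hℓc, hℓ2, hℓ0, hM⟩ := rectc hQa hQ0
  have hg2 : AnalyticAt ℂ g 2 := h3 2 (by norm_num)
  have hne2 : ∀ x ∈ Z, (2 : ℂ) - (x : ℂ) ∈ slitPlane := by
    intro x hx
    left
    have := (hZ x hx).2
    simp
    linarith
  have hs2 : (2 : ℂ) ∈ slitPlane := by left; simp
  set L₀ : ℂ → ℂ := fun w => g w - m * log w - ∑ x ∈ Z, (n x : ℂ) * log (w - x) with hL₀
  have hL₀c : ContinuousAt L₀ 2 := by
    refine ContinuousAt.sub (hg2.continuousAt.sub ?_) ?_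
    · exact continuousAt_const.mul (ContinuousAt.clog continuousAt_id hs2)
    · refine tendsto_finsetSum _ fun x hx => ?_
      exact continuousAt_const.mul (ContinuousAt.clog (by fun_prop) (hne2 x hx))
  obtain ⟨k, δ₂, hδ₂, hbr⟩ := branchc hL₀c hℓc (by
      have e1 : ∀ᶠ w in 𝓝 (2 : ℂ), w ∈ slitPlane := isOpen_slitPlane.mem_nhds hs2
      have e2 : ∀ᶠ w in 𝓝 (2 : ℂ), ∀ x ∈ Z, w - (x : ℂ) ∈ slitPlane := by
        rw [Filter.eventually_all_finset]
        intro x hx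
        have : ContinuousAt (fun w : ℂ => w - (x : ℂ)) 2 := by fun_prop
        exact this.eventually (isOpen_slitPlane.mem_nhds (hne2 x hx))
      filter_upwards [hQ2, e1, e2, hℓ2] with w h6 h7 h8 hw
      have h9 : w ≠ 0 := slitPlane_ne_zero h7
      have h10 : ∀ x ∈ Z, w - (x : ℂ) ≠ 0 := fun x hx => slitPlane_ne_zero (h8 x hx)
      rw [hL₀]
      simp only
      rw [Complex.exp_sub, Complex.exp_sub, h6, Complex.exp_int_mul, Complex.exp_log h9,
        Complex.exp_sum]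
      have h11 : ∏ x ∈ Z, exp ((n x : ℂ) * log (w - x)) = ∏ x ∈ Z, (w - (x : ℂ)) ^ (n x) :=
        Finset.prod_congr rfl fun x hx => by
          rw [Complex.exp_int_mul, Complex.exp_log (h10 x hx)]
      rw [h11, hw]
      have h12 : ∏ x ∈ Z, (w - (x : ℂ)) ^ (n x) ≠ 0 :=
        Finset.prod_ne_zero_iff.2 fun x hx => zpow_ne_zero _ (h10 x hx)
      have h13 : w ^ m ≠ 0 := zpow_ne_zero _ h9
      field_simp)
  set ℓ' : ℂ → ℂ := fun w => ℓ w + k * (2 * Real.pi * I) with hℓ'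
  have hexpℓ' : exp (ℓ' 0) = Q 0 := by
    rw [hℓ']
    simp only
    rw [Complex.exp_add, Complex.exp_int_mul_two_pi_mul_I, mul_one, hℓ0]
  set η : ℝ := min (min δ₁ (δ₂ / 2)) 1 with hη
  have hη0 : 0 < η := lt_min (lt_min hδ₁ (by positivity)) one_pos
  set L : ℂ → ℂ := fun w => m * log w + (∑ x ∈ Z, (n x : ℂ) * log (w - x)) + ℓ' w with hL
  set r₀ : ℂ := (∑ x ∈ Z, (n x : ℂ) * (Real.log x - Real.pi * I)) + ℓ' 0 with hr₀
  refine ⟨η, (∑ x ∈ Z, |(n x : ℝ)| * Cx x) + M, L, r₀, ⟨hη0, ?_, ?_, ?_⟩, ?_, ?_⟩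
  · have : 0 ≤ ∑ x ∈ Z, |(n x : ℝ)| * Cx x :=
      Finset.sum_nonneg fun x hx => mul_nonneg (abs_nonneg _) (Cx_nonneg (hZ x hx).1)
    linarith
  · intro w h6 h7 h8 h9
    have h10 : |w.im| ≤ δ₁ := by
      rw [abs_of_neg h9]
      have := (min_le_left (min δ₁ (δ₂ / 2)) 1).trans (min_le_left _ _)
      linarith
    have h11 : DifferentiableAt ℂ ℓ' w := (hM w h6.le h7 h10).2.add_const _
    rw [hL]
    refine DifferentiableAt.add (DifferentiableAt.add ?_ ?_) h11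
    · exact (DifferentiableAt.clog differentiableAt_id (Or.inl h6)).const_mul _
    · refine DifferentiableAt.fun_sum fun x hx => ?_
      refine (DifferentiableAt.clog (by fun_prop) (Or.inr ?_)).const_mul _
      simp
      exact h9.ne
  · intro w h6 h7 h8 h9
    have h10 : |w.im| ≤ δ₁ := by
      rw [abs_of_neg h9]
      have := (min_le_left (min δ₁ (δ₂ / 2)) 1).trans (min_le_left _ _)
      linarith
    have h8' : -1 ≤ w.im := by
      have := min_le_right (min δ₁ (δ₂ / 2)) 1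
      linarith
    have h11 := (hM w h6.le h7 h10).1
    have h12 : L w - m * log w - r₀ = (∑ x ∈ Z, (n x : ℂ) *
        (log (w - x) - (Real.log x - Real.pi * I))) + (ℓ w - ℓ 0) := by
      rw [hL, hr₀, hℓ']
      simp only [mul_sub, Finset.sum_sub_distrib]
      ring
    rw [h12]
    set X := ‖w‖ * (1 + ‖w‖ * |Real.log (-w.im)|) with hX
    have hX1 : ‖w‖ ≤ X := by
      have : 0 ≤ ‖w‖ * (‖w‖ * |Real.log (-w.im)|) := by positivity
      rw [hX]; nlinarith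
    have h13 : ‖∑ x ∈ Z, (n x : ℂ) * (log (w - x) - (Real.log x - Real.pi * I))‖ ≤
        ∑ x ∈ Z, |(n x : ℝ)| * Cx x * X := by
      refine norm_sum_le_of_le _ fun x hx => ?_
      rw [norm_mul, Complex.norm_intCast, mul_assoc]
      exact mul_le_mul_of_nonneg_left (one_zero (hZ x hx).1 (hZ x hx).2 h6 h7 h8' h9)
        (abs_nonneg _)
    rw [← Finset.sum_mul] at h13
    calc ‖_ + (ℓ w - ℓ 0)‖ ≤ (∑ x ∈ Z, |(n x : ℝ)| * Cx x) * X + M * ‖w‖ :=
          (norm_add_le _ _).trans (add_le_add h13 h11)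
      _ ≤ (∑ x ∈ Z, |(n x : ℝ)| * Cx x) * X + M * X := by gcongr
      _ = _ := by rw [hX]; ring
  · intro w h6 h7 h8
    have h9 : dist w 2 < δ₂ := by
      rw [Complex.dist_eq]
      have e1 : w - 2 = ((w.im : ℝ) : ℂ) * I := by
        apply Complex.ext <;> simp [h6]
      rw [e1, norm_mul, Complex.norm_I, mul_one, Complex.norm_real, Real.norm_eq_abs,
        abs_of_neg h8]
      have := (min_le_left (min δ₁ (δ₂ / 2)) 1).trans (min_le_right _ _)
      linarith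
    have h10 := hbr w h9
    rw [hL₀] at h10
    simp only at h10
    rw [hL, hℓ']
    simp only
    linear_combination h10
  · rw [htr, hr₀, Complex.exp_add, Complex.exp_sum, hexpℓ']
    congr 1
    refine Finset.prod_congr rfl fun x hx => ?_
    have hx0 := (hZ x hx).1
    rw [Complex.exp_int_mul, Complex.exp_sub, Complex.exp_pi_mul_I, ← Complex.ofReal_exp,
      Real.exp_log hx0]
    congr 1
    ring

end Pool.Agent.R409.RF
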