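import Pool.Agent.R409.RF.Ref
import Pool.Agent.R409.RD.Gen

/-!
# The phase-shifted finite sums with complex coefficients
-/

set_option autoImplicit false

namespace Pool.Agent.R409.RF

open Complex MeasureTheory Filter Topology Set
open Pool.Agent.W189.ML Pool.Agent.W189.LC Pool.Agent.W187.UR Pool.Agent.R409.RC Pool.Agent.R409.RD

variable {ι : Type} {lam : ι → ℝ} {c : ι → ℂ} {Φ : ℂ → ℂ} {κ : ℝ}

/-- the series `∑ c_x e^{-w λ_x}` -/
noncomputable def serx (lam : ι → ℝ) (c : ι → ℂ) (w : ℂ) : ℂ := ∑' i, c i * exp (-(w * lam i))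

/-- the mean -/
noncomputable def cmx (lam : ι → ℝ) (c : ι → ℂ) (γ T : ℝ) : ℂ :=
  ∑' i, c i * exp ((γ * (lam i / T) : ℝ) * I) * (om (lam i / T) : ℂ)

/-- the finite sum over `λ_x ≤ exp (θ T)` -/
noncomputable def gsx (lam : ι → ℝ) (c : ι → ℂ) (θ γ T : ℝ) : ℂ :=
  ∑' x, if lam x ≤ Real.exp (θ * T) then
    c x * exp ((γ * (lam x / T) : ℝ) * I) * (om (lam x / T) : ℂ) else 0

/-- the data -/
structure GX (κ : ℝ) (lam : ι → ℝ) (c : ι → ℂ) (Φ : ℂ → ℂ) : Prop where
  lam_nonneg : ∀ x, 0 ≤ lam x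
  sum : ∀ σ : ℝ, κ < σ → Summable fun x => ‖c x‖ * Real.exp (-(σ * lam x))
  mero : ∀ x : ℝ, 0 ≤ x → x ≤ κ → MeromorphicAt Φ (x : ℂ)
  eq : ∀ w : ℂ, κ < w.re → Φ w = exp (serx lam c w)

lemma term_norm (w : ℂ) (x : ι) : ‖c x * exp (-(w * lam x))‖ =
    ‖c x‖ * Real.exp (-(w.re * lam x)) := by
  rw [norm_mul, Complex.norm_exp, Complex.neg_re, Complex.re_mul_ofReal]

theorem GX.ser_diff (D : GX κ lam c Φ) {w : ℂ} (hw : κ < w.re) : AnalyticAt ℂ (serx lam c) w := by
  set σ : ℝ := (κ + w.re) / 2 with hσ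
  have hσ1 : κ < σ := by rw [hσ]; linarith
  have hσw : σ < w.re := by rw [hσ]; linarith
  have hopen : IsOpen {z : ℂ | σ < z.re} := isOpen_lt continuous_const Complex.continuous_re
  have h1 : DifferentiableOn ℂ (serx lam c) {z : ℂ | σ < z.re} := by
    unfold serx
    refine differentiableOn_tsum_of_summable_norm (D.sum σ hσ1) (fun i => ?_) hopen
      (fun i z hz => ?_)
    · exact Differentiable.differentiableOn (by fun_prop)
    · rw [term_norm]
      refine mul_le_mul_of_nonneg_left ?_ (norm_nonneg _)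
      apply Real.exp_le_exp.2
      have hz' : σ < z.re := hz
      have := D.lam_nonneg i
      nlinarith
  exact h1.analyticAt (hopen.mem_nhds hσw)

theorem GX.analytic (D : GX κ lam c Φ) {w : ℂ} (hw : κ < w.re) : AnalyticAt ℂ Φ w := by
  have hopen : IsOpen {z : ℂ | κ < z.re} := isOpen_lt continuous_const Complex.continuous_re
  refine ((D.ser_diff hw).cexp).congr ?_
  filter_upwards [hopen.mem_nhds hw] with z hz
  exact (D.eq z hz).symm

theorem GX.order_right (D : GX κ lam c Φ) {w : ℂ} (hw : κ < w.re) :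
    meromorphicOrderAt Φ w = 0 := by
  rw [(D.analytic hw).meromorphicOrderAt_eq, (D.analytic hw).analyticOrderAt_eq_zero.2 (by
    rw [D.eq w hw]; exact Complex.exp_ne_zero _)]
  rfl

theorem GX.mer (D : GX κ lam c Φ) {x : ℝ} (hx : 0 ≤ x) : MeromorphicAt Φ (x : ℂ) := by
  by_cases h : x ≤ κ
  · exact D.mero x hx h
  · exact (D.analytic (by rw [Complex.ofReal_re]; exact not_le.1 h)).meromorphicAt

/-- the scaled data -/
theorem GX.scale (D : GX κ lam c Φ) {k : ℝ} (hk : 0 < k) (hkκ : κ ≤ k) :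
    GX 1 (fun x => k * lam x) c (fun w => Φ (k * w)) where
  lam_nonneg := fun x => mul_nonneg hk.le (D.lam_nonneg x)
  sum := fun σ hσ => by
    refine (D.sum (σ * k) (by nlinarith)).congr fun x => ?_
    rw [mul_assoc]
  mero := fun x hx _ => by
    have h3 : MeromorphicAt Φ ((k : ℂ) * (x : ℂ)) := by
      have := D.mer (x := k * x) (mul_nonneg hk.le hx)
      push_cast at this
      exact this
    exact h3.comp_analyticAt (g := fun w : ℂ => (k : ℂ) * w) (by fun_prop)
  eq := fun w hw => by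
    have h1 : κ < ((k : ℂ) * w).re := by
      rw [Complex.re_ofReal_mul]
      nlinarith
    rw [D.eq _ h1]
    congr 1
    unfold serx
    refine tsum_congr fun x => ?_
    push_cast
    ring_nf

theorem GX.order_ne_top (D : GX 1 lam c Φ) {x : ℝ} (hx : x ∈ Icc (0 : ℝ) 2) :
    meromorphicOrderAt Φ (x : ℂ) ≠ ⊤ := by
  set U : Set ℂ := (fun x : ℝ => (x : ℂ)) '' Icc 0 2 with hU
  have hm : MeromorphicOn Φ U := by
    rintro _ ⟨y, hy, rfl⟩
    exact D.mer hy.1
  have hc : IsPreconnected U :=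
    isPreconnected_Icc.image _ (Continuous.continuousOn (by fun_prop))
  refine hm.meromorphicOrderAt_ne_top_of_isPreconnected hc (x := ((2 : ℝ) : ℂ))
    ⟨2, ⟨by norm_num, le_rfl⟩, rfl⟩ ⟨x, hx, rfl⟩ ?_
  rw [D.order_right (by simp)]
  exact WithTop.zero_ne_top

/-- real and imaginary parts -/
lemma abs_re_sum {f : ι → ℝ} (hf : ∀ x, 0 ≤ f x) (h : Summable fun x => ‖c x‖ * f x) :
    Summable fun x => |(c x).re| * f x :=
  Summable.of_nonneg_of_le (fun x => mul_nonneg (abs_nonneg _) (hf x))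
    (fun x => mul_le_mul_of_nonneg_right (Complex.abs_re_le_norm _) (hf x)) h

lemma abs_im_sum {f : ι → ℝ} (hf : ∀ x, 0 ≤ f x) (h : Summable fun x => ‖c x‖ * f x) :
    Summable fun x => |(c x).im| * f x :=
  Summable.of_nonneg_of_le (fun x => mul_nonneg (abs_nonneg _) (hf x))
    (fun x => mul_le_mul_of_nonneg_right (Complex.abs_im_le_norm _) (hf x)) h

/-- splitting of a series into real and imaginary parts of the coefficients -/
lemma tsum_split {g : ι → ℂ} (h : Summable fun x => ‖c x‖ * ‖g x‖) :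
    ∑' x, c x * g x = (∑' x, ((c x).re : ℂ) * g x) + I * ∑' x, ((c x).im : ℂ) * g x := by
  have h1 : Summable fun x => ((c x).re : ℂ) * g x := by
    refine Summable.of_norm_bounded (abs_re_sum (fun x => norm_nonneg _) h) fun x => ?_
    rw [norm_mul, Complex.norm_real, Real.norm_eq_abs]
  have h2 : Summable fun x => ((c x).im : ℂ) * g x := by
    refine Summable.of_norm_bounded (abs_im_sum (fun x => norm_nonneg _) h) fun x => ?_
    rw [norm_mul, Complex.norm_real, Real.norm_eq_abs]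
  rw [← tsum_mul_left, ← h1.tsum_add (h2.mul_left I)]
  refine tsum_congr fun x => ?_
  conv_lhs => rw [← Complex.re_add_im (c x)]
  ring

lemma term_norm' (γ : ℝ) (x : ι) (T : ℝ) (hT : 0 < T) (hl : 0 ≤ lam x) :
    ‖exp ((γ * (lam x / T) : ℝ) * I) * (om (lam x / T) : ℂ)‖ = om (lam x / T) := by
  rw [norm_mul, Complex.norm_exp_ofReal_mul_I, one_mul, Complex.norm_real, Real.norm_eq_abs,
    abs_of_nonneg (RD.om_nonneg (div_nonneg hl hT.le))]

theorem GX.summable_om (D : GX κ lam c Φ) {T : ℝ} (hT : 0 < T) :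
    Summable fun x => ‖c x‖ * om (lam x / T) := by
  set σ : ℝ := |κ| + 1 with hσ
  have h1 : κ < σ := by linarith [le_abs_self κ]
  have h0 : 0 ≤ σ := by positivity
  refine Summable.of_nonneg_of_le (fun x => mul_nonneg (norm_nonneg _)
    (RD.om_nonneg (div_nonneg (D.lam_nonneg x) hT.le))) (fun x => ?_)
    ((D.sum σ h1).mul_left (Real.exp (Real.exp (σ * T)) + 1))
  have h2 := om_le (a := σ * T) (by positivity) (div_nonneg (D.lam_nonneg x) hT.le)
  have h3 : σ * T * (lam x / T) = σ * lam x := by field_simp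
  rw [h3] at h2
  calc ‖c x‖ * om (lam x / T) ≤ ‖c x‖ *
        ((Real.exp (Real.exp (σ * T)) + 1) * Real.exp (-(σ * lam x))) :=
        mul_le_mul_of_nonneg_left h2 (norm_nonneg _)
    _ = _ := by ring

lemma GX.cmx_split (D : GX κ lam c Φ) (γ : ℝ) {T : ℝ} (hT : 0 < T) :
    cmx lam c γ T = cmean lam (fun x => (c x).re) γ T + I * cmean lam (fun x => (c x).im) γ T := by
  unfold cmx cmean
  have h1 : Summable fun x => ‖c x‖ *
      ‖exp ((γ * (lam x / T) : ℝ) * I) * (om (lam x / T) : ℂ)‖ := by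
    refine (D.summable_om hT).congr fun x => ?_
    rw [term_norm' γ x T hT (D.lam_nonneg x)]
  simp only [mul_assoc]
  exact tsum_split h1

/-- **the law for the means**, `κ = 1` -/
theorem GX.law1 [Countable ι] (D : GX 1 lam c Φ) {m : ℤ} (hm : meromorphicOrderAt Φ 0 = m) :
    ∃ r₀ : ℂ, exp r₀ = meromorphicTrailingCoeffAt Φ 0 ∧ ∀ γ : ℝ, Real.pi / 2 < γ →
      ∃ C T₀ : ℝ, 0 ≤ C ∧ 1 ≤ T₀ ∧ ∀ T ≥ T₀,
      ‖cmx lam c γ T - (r₀ - m * (Real.log T - Lam γ))‖ ≤ C / T := by
  obtain ⟨η, B, L, r₀, hL, hL2, hr⟩ := belx Φ (serx lam c) (fun x hx => D.mer hx.1)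
    (fun x hx => D.order_ne_top hx) (fun w hw => D.ser_diff hw) D.eq m hm
  refine ⟨r₀, hr, fun γ hγ => ?_⟩
  have hs2 := D.sum 2 (by norm_num)
  have D₁ : SData lam (fun x => -(c x).re) (fun _ => 0) :=
    { lam_pos := D.lam_nonneg
      sum := by
        simp only [abs_neg]
        exact abs_re_sum (fun x => (Real.exp_pos _).le) hs2
      Gd := fun _ _ => differentiableAt_const _
      Gb := ⟨0, fun _ _ _ => by simp⟩
      G2 := by simp }
  have D₂ : SData lam (fun x => -(c x).im) (fun _ => 0) :=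
    { lam_pos := D.lam_nonneg
      sum := by
        simp only [abs_neg]
        exact abs_im_sum (fun x => (Real.exp_pos _).le) hs2
      Gd := fun _ _ => differentiableAt_const _
      Gb := ⟨0, fun _ _ _ => by simp⟩
      G2 := by simp }
  obtain ⟨C, T₀, hC, hT₀, h⟩ := refx D₁ D₂ hγ hL (by
    intro w h1 h2 h3
    rw [← hL2 w h1 h2 h3, ser_neg, ser_neg]
    have h4 : Summable fun x => ‖c x‖ * ‖exp (-(w * lam x))‖ := by
      refine hs2.congr fun x => ?_
      rw [Complex.norm_exp, Complex.neg_re, Complex.re_mul_ofReal, h1]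
    unfold serx ser
    rw [tsum_split h4]
    ring)
  refine ⟨C, T₀, hC, hT₀, fun T hT => ?_⟩
  have hT0 : 0 < T := by linarith
  have h1 := h T hT
  rw [cmean_neg, cmean_neg, Lam_eq] at h1
  rw [D.cmx_split γ hT0, ← norm_neg]
  refine le_trans (le_of_eq ?_) h1
  congr 1
  ring

theorem GX.gsx_sub (D : GX κ lam c Φ) (γ : ℝ) {θ : ℝ} (hθ : κ < θ) (hθ0 : 0 < θ) :
    ∃ C T₀ : ℝ, 0 ≤ C ∧ 1 ≤ T₀ ∧ ∀ T ≥ T₀,
      ‖gsx lam c θ γ T - cmx lam c γ T‖ ≤ C / T := by
  set κ₀ : ℝ := max κ 0 with hκ₀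
  have hκθ : κ₀ < θ := max_lt hθ hθ0
  have hκ00 : 0 ≤ κ₀ := le_max_right _ _
  have hκκ : κ ≤ κ₀ := le_max_left _ _
  set δ : ℝ := (θ - κ₀) / 3 with hδ
  have hδ0 : 0 < δ := by rw [hδ]; linarith
  set σ₁ : ℝ := κ₀ + δ with hσ₁
  set σ₂ : ℝ := κ₀ + 2 * δ with hσ₂
  have hθσ : θ = σ₂ + δ := by rw [hσ₂, hδ]; ring
  have hσ₂0 : 0 ≤ σ₂ := by positivity
  set S : ℝ := ∑' x : ι, ‖c x‖ * Real.exp (-(σ₁ * lam x)) with hS
  have hSs := D.sum σ₁ (by linarith)
  have hS0 : 0 ≤ S := tsum_nonneg fun x => by positivity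
  refine ⟨4 / (δ * θ) * S, max 1 (Real.log (2 / δ) / δ), by positivity, le_max_left _ _,
    fun T hT => ?_⟩
  have hT1 : 1 ≤ T := (le_max_left _ _).trans hT
  have hT0 : 0 < T := by linarith
  have hT2 : Real.log (2 / δ) ≤ δ * T := by
    have := (le_max_right _ _).trans hT
    rw [div_le_iff₀ hδ0] at this
    linarith
  set B : ℝ := (Real.exp (Real.exp (σ₂ * T)) + 1) * Real.exp (-(δ * Real.exp (θ * T))) with hB
  have hB0 : 0 ≤ B := by positivity
  have hs : Summable fun x =>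
      ‖c x * exp ((γ * (lam x / T) : ℝ) * I) * (om (lam x / T) : ℂ)‖ := by
    refine (D.summable_om hT0).congr fun x => ?_
    rw [mul_assoc, norm_mul, term_norm' γ x T hT0 (D.lam_nonneg x)]
  -- the difference
  have h1 : gsx lam c θ γ T - cmx lam c γ T = ∑' x : ι,
      (if lam x ≤ Real.exp (θ * T) then (0 : ℂ) else
        -(c x * exp ((γ * (lam x / T) : ℝ) * I) * (om (lam x / T) : ℂ))) := by
    unfold gsx cmx
    rw [← Summable.tsum_sub]
    · refine tsum_congr fun x => ?_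
      split_ifs <;> ring
    · refine Summable.of_norm_bounded hs fun x => ?_
      split_ifs
      · exact le_rfl
      · rw [norm_zero]; exact norm_nonneg _
    · exact hs.of_norm
  have h2 : ‖gsx lam c θ γ T - cmx lam c γ T‖ ≤ B * S := by
    rw [h1, hS, ← tsum_mul_left]
    refine tsum_of_norm_bounded (hSs.mul_left B).hasSum fun x => ?_
    split_ifs with hx
    · rw [norm_zero]
      exact mul_nonneg hB0 (mul_nonneg (norm_nonneg _) (Real.exp_pos _).le)
    · rw [norm_neg, mul_assoc, norm_mul, term_norm' γ x T hT0 (D.lam_nonneg x)]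
      push Not at hx
      have h3 := om_le (a := σ₂ * T) (by positivity) (div_nonneg (D.lam_nonneg x) hT0.le)
      have h4 : σ₂ * T * (lam x / T) = σ₂ * lam x := by field_simp
      rw [h4] at h3
      have h5 : Real.exp (-(σ₂ * lam x)) ≤
          Real.exp (-(δ * Real.exp (θ * T))) * Real.exp (-(σ₁ * lam x)) := by
        rw [← Real.exp_add]
        apply Real.exp_le_exp.2
        have h6 : σ₂ * lam x = δ * lam x + σ₁ * lam x := by rw [hσ₂, hσ₁]; ring
        have h7 : δ * Real.exp (θ * T) ≤ δ * lam x := mul_le_mul_of_nonneg_left hx.le hδ0.le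
        linarith
      calc ‖c x‖ * om (lam x / T) ≤ ‖c x‖ *
            ((Real.exp (Real.exp (σ₂ * T)) + 1) * (Real.exp (-(δ * Real.exp (θ * T))) *
              Real.exp (-(σ₁ * lam x)))) := by
            refine mul_le_mul_of_nonneg_left (h3.trans ?_) (norm_nonneg _)
            exact mul_le_mul_of_nonneg_left h5 (by positivity)
        _ = B * (‖c x‖ * Real.exp (-(σ₁ * lam x))) := by rw [hB]; ring
  refine h2.trans ?_
  have h3 : B ≤ 4 / (δ * θ) / T := by
    have e1 : Real.exp (σ₂ * T) ≤ δ / 2 * Real.exp (θ * T) := by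
      have h4 : 2 / δ ≤ Real.exp (δ * T) := by
        calc 2 / δ = Real.exp (Real.log (2 / δ)) := (Real.exp_log (by positivity)).symm
          _ ≤ _ := Real.exp_le_exp.2 hT2
      have h7 : Real.exp (θ * T) = Real.exp (σ₂ * T) * Real.exp (δ * T) := by
        rw [← Real.exp_add, hθσ]; congr 1; ring
      rw [h7]
      have h8 : 1 ≤ δ / 2 * Real.exp (δ * T) := by
        calc (1 : ℝ) = δ / 2 * (2 / δ) := by field_simp
          _ ≤ _ := mul_le_mul_of_nonneg_left h4 (by positivity)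
      have h9 := Real.exp_pos (σ₂ * T)
      nlinarith
    have e2 : B ≤ 2 * Real.exp (-(δ / 2 * Real.exp (θ * T))) := by
      have h5 : Real.exp (Real.exp (σ₂ * T)) + 1 ≤ 2 * Real.exp (δ / 2 * Real.exp (θ * T)) := by
        have h6 := Real.exp_le_exp.2 e1
        have h7 : (1 : ℝ) ≤ Real.exp (δ / 2 * Real.exp (θ * T)) := Real.one_le_exp (by positivity)
        linarith
      rw [hB]
      calc _ ≤ 2 * Real.exp (δ / 2 * Real.exp (θ * T)) * Real.exp (-(δ * Real.exp (θ * T))) := by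
            gcongr
        _ = 2 * Real.exp (-(δ / 2 * Real.exp (θ * T))) := by
          rw [mul_assoc, ← Real.exp_add]
          congr 2
          ring
    refine e2.trans ?_
    have e3 : δ / 2 * (θ * T) ≤ Real.exp (δ / 2 * Real.exp (θ * T)) := by
      have h5 := Real.add_one_le_exp (θ * T)
      have h6 := Real.add_one_le_exp (δ / 2 * Real.exp (θ * T))
      have h7 : δ / 2 * (θ * T) ≤ δ / 2 * Real.exp (θ * T) :=
        mul_le_mul_of_nonneg_left (by linarith) (by positivity)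
      linarith
    rw [Real.exp_neg, ← div_eq_mul_inv]
    have h8 : 0 < δ / 2 * (θ * T) := by positivity
    refine (div_le_div_of_nonneg_left (by norm_num) h8 e3).trans (le_of_eq ?_)
    field_simp
    norm_num
  calc B * S ≤ 4 / (δ * θ) / T * S := mul_le_mul_of_nonneg_right h3 hS0
    _ = 4 / (δ * θ) * S / T := by ring

/-- **the law for the finite sums, complex coefficients** -/
theorem GX.law [Countable ι] (D : GX κ lam c Φ) : ∃ (m : ℤ) (r₀ : ℂ),
    MeromorphicAt Φ 0 ∧ meromorphicOrderAt Φ 0 = m ∧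
    exp r₀ = meromorphicTrailingCoeffAt Φ 0 ∧
    ∀ γ θ : ℝ, Real.pi / 2 < γ → κ < θ → 0 < θ → Law (gsx lam c θ γ) m r₀ (Lam γ) := by
  set k : ℝ := |κ| + 1 with hk
  have hk0 : 0 < k := by positivity
  have hkκ : κ ≤ k := by linarith [le_abs_self κ]
  have hkc : (k : ℂ) ≠ 0 := by exact_mod_cast hk0.ne'
  have M := D.scale hk0 hkκ
  have htop := M.order_ne_top (x := 0) ⟨le_rfl, by norm_num⟩
  rw [Complex.ofReal_zero, order_scale Φ hk0.ne', mul_zero] at htop
  obtain ⟨m, hm⟩ := WithTop.ne_top_iff_exists.1 htop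
  have hm1 : meromorphicOrderAt (fun w => Φ (k * w)) 0 = m := by
    rw [order_scale Φ hk0.ne', mul_zero]
    exact hm.symm
  have hmer0 : MeromorphicAt Φ 0 := by
    have := D.mer (x := 0) le_rfl
    simpa using this
  have hcs := coeff_scale hk0.ne' hmer0 hm.symm
  obtain ⟨r₁, h1, h5⟩ := M.law1 hm1
  refine ⟨m, r₁ - m * Real.log k, hmer0, hm.symm, ?_, fun γ θ hγ hθ hθ0 => ?_⟩
  · rw [Complex.exp_sub, h1, hcs, Complex.exp_int_mul, ← Complex.ofReal_exp, Real.exp_log hk0]
    have := zpow_ne_zero m hkc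
    field_simp
  obtain ⟨C, T₀, h3, h4, h5⟩ := h5 γ hγ
  obtain ⟨C', T₁, hC', hT₁, hT'⟩ := D.gsx_sub γ hθ hθ0
  refine ⟨C / k + C', max (max T₀ (T₀ / k)) T₁, by positivity, ?_, fun T hT => ?_⟩
  · exact h4.trans ((le_max_left _ _).trans (le_max_left _ _))
  have hTa : T₀ ≤ T := (le_max_left _ _).trans ((le_max_left _ _).trans hT)
  have hT0 : 0 < T := by linarith
  have h6 : T₀ ≤ k * T := by
    have := (le_max_right _ _).trans ((le_max_left _ _).trans hT)
    rw [div_le_iff₀ hk0] at this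
    linarith
  have h7 := h5 (k * T) h6
  have h8 : cmx (fun x => k * lam x) c γ (k * T) = cmx lam c γ T := by
    unfold cmx
    refine tsum_congr fun x => ?_
    rw [mul_div_mul_left _ _ hk0.ne']
  rw [h8, Real.log_mul hk0.ne' hT0.ne'] at h7
  have e1 : ‖cmx lam c γ T - (r₁ - m * Real.log k - m * (Real.log T - Lam γ))‖ ≤ C / k / T := by
    refine le_trans (le_of_eq ?_) (h7.trans (le_of_eq ?_))
    · congr 1
      push_cast
      ring
    · rw [div_div]
  have e2 := hT' T ((le_max_right _ _).trans hT)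
  have e3 : gsx lam c θ γ T - (r₁ - m * Real.log k - m * (Real.log T - Lam γ)) =
      (cmx lam c γ T - (r₁ - m * Real.log k - m * (Real.log T - Lam γ))) +
      (gsx lam c θ γ T - cmx lam c γ T) := by ring
  rw [e3, add_div]
  exact (norm_add_le _ _).trans (add_le_add e1 e2)

end Pool.Agent.R409.RF
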