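import Pool.Agent.R409.RF.Bel
import Pool.Agent.W187.UR.NF

/-!
# The refined asymptotics with complex coefficients
-/

set_option autoImplicit false

namespace Pool.Agent.R409.RF

open Complex MeasureTheory Filter Topology Set
open scoped Interval
open Pool.Agent.W189.ML Pool.Agent.W189.LC Pool.Agent.W338.UR Pool.Agent.W187.UR

variable {ι : Type} {lam c₁ c₂ : ι → ℝ}

/-- the difference, complex coefficients -/
noncomputable def FX (lam c₁ c₂ : ι → ℝ) (γ : ℝ) (m : ℤ) (r₀ : ℂ) (T : ℝ) (z : ℂ) : ℂ :=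
  FF lam c₁ γ m r₀ T z - (-I) * FF lam c₂ γ 0 0 T z

theorem rightx [Countable ι] (D₁ : SData lam c₁ (fun _ => 0)) (D₂ : SData lam c₂ (fun _ => 0))
    {γ : ℝ} (hγ : 0 < γ) (m : ℤ) (r₀ : ℂ) :
    ∃ Q : ℝ, 0 ≤ Q ∧ ∀ T : ℝ, 1 ≤ T → Adm (2 * T) (FX lam c₁ c₂ γ m r₀ T) ∧
    J (2 * T) (FX lam c₁ c₂ γ m r₀ T) = (cmean lam c₁ γ T + I * cmean lam c₂ γ T) -
      (m * Real.log T - m * J 1 (ell γ) - r₀) ∧
    ∀ z ∈ HS (2 * T), ‖FX lam c₁ c₂ γ m r₀ T z‖ ≤ Q * z.re := by
  obtain ⟨Q₁, hQ₁, h₁⟩ := right D₁ hγ m r₀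
  obtain ⟨Q₂, hQ₂, h₂⟩ := right D₂ hγ 0 0
  refine ⟨Q₁ + Q₂, by positivity, fun T hT => ?_⟩
  obtain ⟨a1, b1, d1⟩ := h₁ T hT
  obtain ⟨a2, b2, d2⟩ := h₂ T hT
  have hb0 : 0 ≤ 2 * T := by linarith
  have a2' : Adm (2 * T) (fun z => (-I) * FF lam c₂ γ 0 0 T z) := by
    obtain ⟨A, B, hA, hB, h⟩ := a2.bound
    refine ⟨continuousOn_const.mul a2.cont, ‖(-I : ℂ)‖ * A, ‖(-I : ℂ)‖ * B, by positivity,
      by positivity, fun z hz => ?_⟩
    rw [norm_mul]
    calc ‖(-I : ℂ)‖ * ‖FF lam c₂ γ 0 0 T z‖ ≤ ‖(-I : ℂ)‖ * (A + B * z.re) :=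
          mul_le_mul_of_nonneg_left (h z hz) (norm_nonneg _)
      _ = _ := by ring
  have hbd : ∀ z ∈ HS (2 * T), ‖FX lam c₁ c₂ γ m r₀ T z‖ ≤ (Q₁ + Q₂) * z.re := by
    intro z hz
    unfold FX
    refine (norm_sub_le _ _).trans ?_
    rw [norm_mul, norm_neg, Complex.norm_I, one_mul, add_mul]
    exact add_le_add (d1 z hz) (d2 z hz)
  refine ⟨⟨a1.cont.sub a2'.cont, 0, Q₁ + Q₂, le_rfl, by positivity, fun z hz => ?_⟩, ?_, hbd⟩
  · rw [zero_add]
    exact hbd z hz
  · have e1 : J (2 * T) (FX lam c₁ c₂ γ m r₀ T) = J (2 * T) (FF lam c₁ γ m r₀ T) -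
        J (2 * T) (fun z => (-I) * FF lam c₂ γ 0 0 T z) := J_sub hb0 a1 a2'
    rw [e1, J_const_mul, b1, b2]
    push_cast
    ring

/-- the refined asymptotics, complex coefficients; the proof is the one of
`Pool.Agent.W187.UR.refc` -/
theorem refx [Countable ι] (D₁ : SData lam c₁ (fun _ => 0)) (D₂ : SData lam c₂ (fun _ => 0))
    {γ : ℝ} (hγ : Real.pi / 2 < γ) {m : ℤ} {r₀ : ℂ} {L : ℂ → ℂ} {η B : ℝ} (H : Bel m r₀ η B L)
    (hL2 : ∀ w : ℂ, w.re = 2 → -η ≤ w.im → w.im < 0 → -(ser lam c₁ w + I * ser lam c₂ w) = L w) :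
    ∃ C T₀ : ℝ, 0 ≤ C ∧ 1 ≤ T₀ ∧ ∀ T ≥ T₀,
      ‖(cmean lam c₁ γ T + I * cmean lam c₂ γ T) -
        (m * Real.log T - m * J 1 (fun z => log (z - γ * I)) - r₀)‖ ≤ C / T := by
  obtain ⟨hθ1, hθ2, hθ3, hκ0⟩ := th_facts hγ
  have hpi := Real.pi_pos
  have hγ0 : 0 < γ := by linarith
  have hη := H.hη
  obtain ⟨C1, hC1, hleft⟩ := left hγ H
  obtain ⟨Q, hQ, hright⟩ := rightx D₁ D₂ hγ0 m r₀
  set θ : ℝ := th γ with hθ
  set κ : ℝ := -Real.cos θ with hκ
  have hq : 0 < (Real.pi + γ) / η := by positivity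
  refine ⟨C1 + Q * (2 / κ ^ 2) + Q, (Real.pi + γ) / η + (1 + γ) + 1, by positivity,
    by linarith, fun T hT => ?_⟩
  have hT1 : 1 ≤ T := by linarith
  have hT0 : 0 < T := by linarith
  obtain ⟨admF, hJ, hF⟩ := hright T hT1
  set b : ℝ := 2 * T with hb
  have hb0 : 0 ≤ b := by linarith
  have hexpb : Real.exp (-b) ≤ 1 / T := by
    rw [Real.exp_neg, le_div_iff₀ hT0, inv_mul_le_iff₀ (Real.exp_pos _), mul_one]
    have := Real.add_one_le_exp b
    linarith
  -- the rays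
  have E1 : ‖∫ x in Ioi b, rho (FX lam c₁ c₂ γ m r₀ T) x‖ ≤ Q / T := by
    have := norm_rays_le' (Φ := FX lam c₁ c₂ γ m r₀ T) (A := 0) (B := Q) hb0 le_rfl hQ
      (s := Ioi b)
      (fun x hx => by have := hF _ (up_mem (le_of_lt hx)); simpa using this)
      (fun x hx => by have := hF _ (down_mem (le_of_lt hx)); simpa using this)
      subset_rfl measurableSet_Ioi
    refine this.trans ?_
    rw [zero_add, div_eq_mul_one_div]
    exact mul_le_mul_of_nonneg_left hexpb hQ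
  -- the upper part
  have E2 : ‖∫ y in θ..Real.pi, K (b + y * I) * FX lam c₁ c₂ γ m r₀ T (b + y * I)‖ ≤
      Q * (2 / κ ^ 2) / T * |Real.pi - θ| := by
    refine intervalIntegral.norm_integral_le_of_norm_le_const fun y hy => ?_
    rw [uIoc_of_le hθ3] at hy
    rw [norm_mul]
    have h1 : ‖K (b + y * I)‖ ≤ Real.exp (-(κ * Real.exp b)) := by
      refine norm_K_neg ?_
      rw [hκ, neg_neg]
      exact Real.cos_le_cos_of_nonneg_of_le_pi (by linarith) hy.2 hy.1.le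
    have h2 := hF (b + y * I) (vert_mem (by linarith [hy.1]) hy.2)
    have h3 : ((b : ℂ) + y * I).re = b := by simp
    rw [h3] at h2
    calc ‖K (b + y * I)‖ * ‖FX lam c₁ c₂ γ m r₀ T (b + y * I)‖
        ≤ Real.exp (-(κ * Real.exp b)) * (Q * b) :=
          mul_le_mul h1 h2 (norm_nonneg _) (Real.exp_pos _).le
      _ = Q * (Real.exp (-(κ * Real.exp b)) * b) := by ring
      _ ≤ Q * (2 / κ ^ 2 * Real.exp (-b)) := mul_le_mul_of_nonneg_left (dexp_le hκ0 hb0) hQ
      _ ≤ Q * (2 / κ ^ 2 * (1 / T)) := by gcongr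
      _ = _ := by ring
  -- the lower part
  have E3 : ‖∫ y in (-Real.pi)..θ, K (b + y * I) * FX lam c₁ c₂ γ m r₀ T (b + y * I)‖ ≤
      C1 / T := by
    have h0 : (∫ y in (-Real.pi)..θ, K (b + y * I) * FX lam c₁ c₂ γ m r₀ T (b + y * I)) =
        -∫ y in (-Real.pi)..θ, K (b + y * I) * Rr m r₀ L (ww γ T (b + y * I)) := by
      rw [← intervalIntegral.integral_neg]
      refine intervalIntegral.integral_congr fun y hy => ?_
      rw [uIcc_of_le (by linarith)] at hy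
      have hzr : ((b : ℂ) + y * I).re = b := by simp
      have hzi : ((b : ℂ) + y * I).im = y := by simp
      obtain ⟨d1, d2, d3, d4⟩ := dom hη hγ hT (z := b + y * I) (by rw [hzr]; linarith)
        (by rw [hzr]) (by rw [hzi]; exact hy.1) (by rw [hzi]; exact hy.2)
      have hre : (ww γ T (b + y * I)).re = 2 := by
        rw [ww_re, hzr, hb]
        field_simp
      have h5 := hL2 _ hre d3 d4
      have h6 : log (ww γ T (b + y * I)) = ell γ (b + y * I) - Real.log T := by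
        have h1 : ww γ T (b + y * I) = ((T⁻¹ : ℝ) : ℂ) * (b + y * I - γ * I) := by
          unfold ww
          push_cast
          field_simp
        have h2 : (b : ℂ) + y * I - γ * I ≠ 0 := by
          intro h
          have := congrArg Complex.re h
          simp at this
          linarith
        unfold ell
        rw [h1, Complex.log_ofReal_mul (by positivity) h2, Real.log_inv]
        push_cast
        ring
      have h7 : FX lam c₁ c₂ γ m r₀ T (b + y * I) = -Rr m r₀ L (ww γ T (b + y * I)) := by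
        unfold FX FF Rr
        rw [h6]
        push_cast
        linear_combination -h5
      simp only [h7]
      ring
    rw [h0, norm_neg]
    exact hleft T hT
  -- the sum
  have hii := admF.vint
  have hsub1 : IntervalIntegrable (fun y : ℝ => K (b + y * I) * FX lam c₁ c₂ γ m r₀ T (b + y * I))
      volume (-Real.pi) θ := hii.mono_set (by
        rw [uIcc_of_le (by linarith), uIcc_of_le (by linarith)]
        exact Icc_subset_Icc le_rfl hθ3)
  have hsub2 : IntervalIntegrable (fun y : ℝ => K (b + y * I) * FX lam c₁ c₂ γ m r₀ T (b + y * I))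
      volume θ Real.pi := hii.mono_set (by
        rw [uIcc_of_le (by linarith), uIcc_of_le (by linarith)]
        exact Icc_subset_Icc (by linarith) le_rfl)
  have E4 := intervalIntegral.integral_add_adjacent_intervals hsub1 hsub2
  have hn2 : ‖(2 * Real.pi : ℂ)⁻¹‖ = (2 * Real.pi)⁻¹ := by
    rw [norm_inv, norm_mul, Complex.norm_real, Real.norm_eq_abs, abs_of_pos Real.pi_pos]
    norm_num
  have hpi3 := Real.pi_gt_three
  have hpt : |Real.pi - θ| ≤ 2 * Real.pi := by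
    rw [abs_of_nonneg (by linarith)]; linarith
  have E5 : ‖V b (FX lam c₁ c₂ γ m r₀ T)‖ ≤ C1 / T + Q * (2 / κ ^ 2) / T := by
    unfold V
    rw [← E4, norm_mul, hn2, inv_mul_le_iff₀ (by positivity)]
    refine (norm_add_le _ _).trans ?_
    have hx : 0 ≤ C1 / T := by positivity
    have hy : 0 ≤ Q * (2 / κ ^ 2) / T := by positivity
    have h1 : C1 / T ≤ 2 * Real.pi * (C1 / T) := by nlinarith
    have h2 : Q * (2 / κ ^ 2) / T * |Real.pi - θ| ≤ Q * (2 / κ ^ 2) / T * (2 * Real.pi) :=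
      mul_le_mul_of_nonneg_left hpt hy
    calc _ ≤ C1 / T + Q * (2 / κ ^ 2) / T * |Real.pi - θ| := add_le_add E3 E2
      _ ≤ 2 * Real.pi * (C1 / T) + Q * (2 / κ ^ 2) / T * (2 * Real.pi) := add_le_add h1 h2
      _ = _ := by ring
  have E6 : ‖(cmean lam c₁ γ T + I * cmean lam c₂ γ T) - (m * Real.log T - m * J 1 (ell γ) - r₀)‖ ≤
      (C1 + Q * (2 / κ ^ 2) + Q) / T := by
    rw [← hJ]
    unfold J
    refine (norm_add_le _ _).trans ((add_le_add E5 E1).trans (le_of_eq ?_))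
    ring
  exact E6

end Pool.Agent.R409.RF
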