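import Pool.Agent.R409.RF.Gen
import Pool.Agent.R409.RD.Lim

/-!
# Euler products with complex factors of any weight, at any complex point
-/

set_option autoImplicit false

namespace Pool.Agent.R409.RF

open Complex MeasureTheory Filter Topology Set
open Pool.Agent.W189.ML Pool.Agent.W189.LC Pool.Agent.W187.UR Pool.Agent.R409.RC

variable {P : Type} {N : ℕ} {w : ℝ} {q : P → ℝ} {α : P → Fin N → ℂ} {F : ℂ → ℂ}

/-- numerical data of an Euler product of weight `w` -/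
structure XD (w : ℝ) (q : P → ℝ) (α : P → Fin N → ℂ) : Prop where
  two_le : ∀ v, 2 ≤ q v
  sum : ∀ σ : ℝ, 1 < σ → Summable fun v => q v ^ (-σ)
  norm_le : ∀ v j, ‖α v j‖ ≤ q v ^ (w / 2)

/-- the parameters shifted to the point `s₀` -/
noncomputable def shx (s₀ : ℂ) (q : P → ℝ) (α : P → Fin N → ℂ) (v : P) (j : Fin N) : ℂ :=
  α v j * (q v : ℂ) ^ (-s₀)

lemma XD.q_pos (E : XD w q α) (v : P) : 0 < q v := by linarith [E.two_le v]

lemma XD.fr_nonneg (E : XD w q α) (x : P × ℕ) : 0 ≤ fr q x := by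
  unfold fr
  have : 0 ≤ Real.log (q x.1) := Real.log_nonneg (by linarith [E.two_le x.1])
  positivity

lemma XD.exp_fr (E : XD w q α) (σ : ℝ) (x : P × ℕ) :
    Real.exp (-(σ * fr q x)) = (q x.1 ^ (-σ)) ^ (x.2 + 1) := by
  have hq0 := E.q_pos x.1
  rw [← Real.rpow_natCast, ← Real.rpow_mul hq0.le, Real.rpow_def_of_pos hq0]
  unfold fr
  congr 1
  push_cast
  ring

lemma XD.norm_shx (E : XD w q α) (s₀ : ℂ) (v : P) (j : Fin N) :
    ‖shx s₀ q α v j‖ ≤ q v ^ (w / 2 - s₀.re) := by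
  have hq := E.q_pos v
  unfold shx
  rw [norm_mul, Complex.norm_cpow_eq_rpow_re_of_pos hq, Complex.neg_re]
  calc ‖α v j‖ * q v ^ (-s₀.re) ≤ q v ^ (w / 2) * q v ^ (-s₀.re) :=
        mul_le_mul_of_nonneg_right (E.norm_le v j) (Real.rpow_nonneg hq.le _)
    _ = q v ^ (w / 2 - s₀.re) := by
        rw [← Real.rpow_add hq]
        congr 1

lemma XD.norm_cP (E : XD w q α) (s₀ : ℂ) (x : P × ℕ) :
    ‖cP (shx s₀ q α) x‖ ≤ N * (q x.1 ^ (w / 2 - s₀.re)) ^ (x.2 + 1) := by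
  unfold cP
  rw [norm_div, Complex.norm_natCast]
  have h1 : ‖∑ j, shx s₀ q α x.1 j ^ (x.2 + 1)‖ ≤ N * (q x.1 ^ (w / 2 - s₀.re)) ^ (x.2 + 1) := by
    refine (norm_sum_le_of_le (n := fun _ => (q x.1 ^ (w / 2 - s₀.re)) ^ (x.2 + 1)) _
      fun j _ => ?_).trans (le_of_eq ?_)
    · rw [norm_pow]
      exact pow_le_pow_left₀ (norm_nonneg _) (E.norm_shx s₀ x.1 j) _
    · rw [Finset.sum_const, Finset.card_univ, Fintype.card_fin, nsmul_eq_mul]
  refine (div_le_self (norm_nonneg _) ?_).trans h1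
  push_cast
  linarith [(Nat.cast_nonneg x.2 : (0 : ℝ) ≤ x.2)]

lemma XD.rpow_le (E : XD w q α) {σ : ℝ} (hσ : 1 ≤ σ) (v : P) : q v ^ (-σ) ≤ 1 / 2 := by
  have hq := E.two_le v
  calc q v ^ (-σ) ≤ q v ^ (-1 : ℝ) :=
        Real.rpow_le_rpow_of_exponent_le (by linarith) (by linarith)
    _ = (q v)⁻¹ := Real.rpow_neg_one _
    _ ≤ 2⁻¹ := inv_anti₀ (by norm_num) hq
    _ = 1 / 2 := by norm_num

theorem XD.summable (E : XD w q α) (s₀ : ℂ) {σ : ℝ} (hσ : w / 2 + 1 - s₀.re < σ) :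
    Summable fun x : P × ℕ => ‖cP (shx s₀ q α) x‖ * Real.exp (-(σ * fr q x)) := by
  set τ : ℝ := σ - (w / 2 - s₀.re) with hτ
  have hτ1 : 1 < τ := by rw [hτ]; linarith
  have hg : Summable fun n : ℕ => (1 / 2 : ℝ) ^ n :=
    summable_geometric_of_lt_one (by norm_num) (by norm_num)
  have h1 := ((E.sum τ hτ1).mul_left (N : ℝ)).mul_of_nonneg hg
    (fun v => by
      have := E.q_pos v
      show 0 ≤ (N : ℝ) * q v ^ (-τ)
      positivity) (fun n => by positivity)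
  refine Summable.of_nonneg_of_le (fun x => by positivity) (fun x => ?_) h1
  have hq0 := E.q_pos x.1
  rw [E.exp_fr]
  have h2 : q x.1 ^ (w / 2 - s₀.re) * q x.1 ^ (-σ) = q x.1 ^ (-τ) := by
    rw [← Real.rpow_add hq0]
    congr 1
    rw [hτ]
    ring
  have h3 : q x.1 ^ (-τ) ≤ 1 / 2 := E.rpow_le hτ1.le x.1
  have h4 : 0 ≤ q x.1 ^ (-τ) := Real.rpow_nonneg hq0.le _
  calc ‖cP (shx s₀ q α) x‖ * (q x.1 ^ (-σ)) ^ (x.2 + 1)
      ≤ (N * (q x.1 ^ (w / 2 - s₀.re)) ^ (x.2 + 1)) * (q x.1 ^ (-σ)) ^ (x.2 + 1) :=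
        mul_le_mul_of_nonneg_right (E.norm_cP s₀ x) (pow_nonneg (Real.rpow_nonneg hq0.le _) _)
    _ = (N * q x.1 ^ (-τ)) * (q x.1 ^ (-τ)) ^ x.2 := by
        rw [mul_assoc, ← mul_pow, h2, pow_succ]
        ring
    _ ≤ (N * q x.1 ^ (-τ)) * (1 / 2) ^ x.2 := by
        gcongr

theorem XD.factor_sum (E : XD w q α) (s₀ : ℂ) {z : ℂ} (hz : w / 2 + 1 - s₀.re < z.re) (v : P) :
    HasSum (fun n : ℕ => cP (shx s₀ q α) (v, n) * exp (-(z * fr q (v, n))))
      (∑' n : ℕ, cP (shx s₀ q α) (v, n) * exp (-(z * fr q (v, n)))) ∧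
    exp (∑' n : ℕ, cP (shx s₀ q α) (v, n) * exp (-(z * fr q (v, n)))) =
      ∏ j, (1 - α v j * (q v : ℂ) ^ (-(s₀ + z)))⁻¹ := by
  have hq := E.two_le v
  have hq0 := E.q_pos v
  have hqc : (q v : ℂ) ≠ 0 := by exact_mod_cast hq0.ne'
  set x : ℂ := (q v : ℂ) ^ (-z) with hx
  have hb : ∀ j, ‖shx s₀ q α v j * x‖ < 1 := by
    intro j
    rw [norm_mul, hx, Complex.norm_cpow_eq_rpow_re_of_pos hq0, Complex.neg_re]
    calc ‖shx s₀ q α v j‖ * q v ^ (-z.re) ≤ q v ^ (w / 2 - s₀.re) * q v ^ (-z.re) :=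
          mul_le_mul_of_nonneg_right (E.norm_shx s₀ v j) (Real.rpow_nonneg hq0.le _)
      _ = q v ^ (-(z.re - (w / 2 - s₀.re))) := by
          rw [← Real.rpow_add hq0]
          congr 1
          ring
      _ ≤ 1 / 2 := E.rpow_le (by linarith) v
      _ < 1 := by norm_num
  have hs : ∀ z : ℂ, ‖z‖ < 1 → HasSum (fun n : ℕ => z ^ (n + 1) / ((n + 1 : ℕ) : ℂ)) (-log (1 - z)) := by
    intro z hz
    have := Complex.hasSum_taylorSeries_neg_log hz
    rw [← hasSum_nat_add_iff' 1] at this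
    simpa using this
  have hterm : ∀ n : ℕ, cP (shx s₀ q α) (v, n) * exp (-(z * fr q (v, n))) =
      ∑ j, (shx s₀ q α v j * x) ^ (n + 1) / ((n + 1 : ℕ) : ℂ) := by
    intro n
    have e1 : x ^ (n + 1) = exp (-(z * fr q (v, n))) := by
      rw [hx, Complex.cpow_def_of_ne_zero hqc, ← Complex.exp_nat_mul]
      congr 1
      unfold fr
      rw [← Complex.ofReal_log hq0.le]
      push_cast
      ring
    rw [← e1]
    unfold cP
    simp only
    rw [div_mul_eq_mul_div, Finset.sum_mul, Finset.sum_div]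
    refine Finset.sum_congr rfl fun j _ => ?_
    rw [mul_pow]
  have hS : HasSum (fun n : ℕ => cP (shx s₀ q α) (v, n) * exp (-(z * fr q (v, n))))
      (∑ j, -log (1 - shx s₀ q α v j * x)) := by
    simp only [hterm]
    exact hasSum_sum fun j _ => hs _ (hb j)
  refine ⟨hS.summable.hasSum, ?_⟩
  rw [hS.tsum_eq, Complex.exp_sum]
  refine Finset.prod_congr rfl fun j _ => ?_
  have hne : 1 - shx s₀ q α v j * x ≠ 0 := by
    intro h
    rw [sub_eq_zero] at h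
    have := hb j
    rw [← h] at this
    simp at this
  rw [Complex.exp_neg, Complex.exp_log hne]
  congr 2
  unfold shx
  rw [hx, mul_assoc, ← Complex.cpow_add _ _ hqc]
  congr 2
  ring

theorem XD.hasProd (E : XD w q α) (s₀ : ℂ) {z : ℂ} (hz : w / 2 + 1 - s₀.re < z.re) :
    HasProd (fun v => ∏ j, (1 - α v j * (q v : ℂ) ^ (-(s₀ + z)))⁻¹)
      (exp (serx (fr q) (cP (shx s₀ q α)) z)) := by
  have hcs : Summable fun x : P × ℕ => cP (shx s₀ q α) x * exp (-(z * fr q x)) := by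
    refine Summable.of_norm_bounded (E.summable s₀ hz) fun x => ?_
    rw [term_norm]
  have h1 : HasSum (fun x : P × ℕ => cP (shx s₀ q α) x * exp (-(z * fr q x)))
      (serx (fr q) (cP (shx s₀ q α)) z) := hcs.hasSum
  have h2 := h1.prod_fiberwise (fun v => (E.factor_sum s₀ hz v).1)
  have h3 := h2.cexp
  refine h3.congr_fun fun v => ?_
  simp only [Function.comp_apply]
  rw [(E.factor_sum s₀ hz v).2]

/-- the data of the abstract law at the point `s₀` -/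
theorem XD.gx (E : XD w q α) (s₀ : ℂ)
    (hmer : ∀ x : ℝ, 0 ≤ x → x ≤ w / 2 + 1 - s₀.re → MeromorphicAt F (s₀ + x))
    (hF : ∀ s : ℂ, w / 2 + 1 < s.re → F s = ∏' v, ∏ j, (1 - α v j * (q v : ℂ) ^ (-s))⁻¹) :
    GX (w / 2 + 1 - s₀.re) (fr q) (cP (shx s₀ q α)) (fun s => F (s₀ + s)) where
  lam_nonneg := E.fr_nonneg
  sum := fun σ hσ => E.summable s₀ hσ
  mero := fun x h0 h1 => (hmer x h0 h1).comp_analyticAt (g := fun w : ℂ => s₀ + w) (by fun_prop)
  eq := fun z hz => by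
    rw [hF (s₀ + z) (by
      rw [Complex.add_re]
      linarith), (E.hasProd s₀ hz).tprod_eq]

lemma XD.finite_q (E : XD w q α) (B : ℝ) : {v : P | q v ≤ B}.Finite := by
  by_cases hB : B < 2
  · refine Set.Finite.subset Set.finite_empty fun v hv => ?_
    have := E.two_le v
    have h2 : q v ≤ B := hv
    linarith
  · push Not at hB
    have h1 := (E.sum 2 (by norm_num)).tendsto_cofinite_zero
    have h2 : (0 : ℝ) < B ^ (-2 : ℝ) := Real.rpow_pos_of_pos (by linarith) _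
    have h3 := h1.eventually (gt_mem_nhds h2)
    rw [Filter.eventually_cofinite] at h3
    refine h3.subset fun v hv => ?_
    show ¬ q v ^ (-2 : ℝ) < B ^ (-2 : ℝ)
    rw [not_lt]
    exact Real.rpow_le_rpow_of_nonpos (E.q_pos v) hv (by norm_num)

lemma XD.finite_fr (E : XD w q α) (Y : ℝ) : {x : P × ℕ | fr q x ≤ Y}.Finite := by
  have h1 : {x : P × ℕ | fr q x ≤ Y} ⊆ {v : P | q v ≤ Real.exp Y} ×ˢ
      {k : ℕ | k ≤ ⌈Y / Real.log 2⌉₊} := by
    rintro ⟨v, k⟩ hx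
    have hx' : ((k : ℝ) + 1) * Real.log (q v) ≤ Y := hx
    have hq := E.two_le v
    have hl2 : 0 < Real.log 2 := Real.log_pos (by norm_num)
    have hl : Real.log 2 ≤ Real.log (q v) := Real.log_le_log (by norm_num) hq
    have hk : (0 : ℝ) ≤ k := k.cast_nonneg
    constructor
    · show q v ≤ Real.exp Y
      have : Real.log (q v) ≤ Y := by nlinarith
      calc q v = Real.exp (Real.log (q v)) := (Real.exp_log (E.q_pos v)).symm
        _ ≤ _ := Real.exp_le_exp.2 this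
    · show k ≤ ⌈Y / Real.log 2⌉₊
      have h3 : (k : ℝ) ≤ Y / Real.log 2 := by
        rw [le_div_iff₀ hl2]
        nlinarith
      exact_mod_cast h3.trans (Nat.le_ceil _)
  exact ((E.finite_q _).prod (Set.finite_le_nat _)).subset h1

/-- the finite sum as a sum over the prime powers `q_v^k ≤ exp (exp (θ T))` -/
theorem XD.gsx_eq (E : XD w q α) (s₀ : ℂ) (θ γ T : ℝ) : gsx (fr q) (cP (shx s₀ q α)) θ γ T =
    ∑ᶠ x ∈ {x : P × ℕ | 1 ≤ x.2 ∧ q x.1 ^ x.2 ≤ Real.exp (Real.exp (θ * T))},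
      pterm q (shx s₀ q α) γ T x.1 x.2 := by
  have hset : {x : P × ℕ | 1 ≤ x.2 ∧ q x.1 ^ x.2 ≤ Real.exp (Real.exp (θ * T))} =
      (fun x : P × ℕ => (x.1, x.2 + 1)) '' {x | fr q x ≤ Real.exp (θ * T)} := by
    ext ⟨v, k⟩
    simp only [Set.mem_setOf_eq, Set.mem_image, Prod.mk.injEq, Prod.exists]
    have hlog : ∀ k : ℕ, q v ^ k ≤ Real.exp (Real.exp (θ * T)) ↔
        (k : ℝ) * Real.log (q v) ≤ Real.exp (θ * T) := by
      intro k
      rw [← Real.log_le_iff_le_exp (pow_pos (E.q_pos v) k), Real.log_pow]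
    constructor
    · rintro ⟨h1, h2⟩
      refine ⟨v, k - 1, ?_, rfl, by omega⟩
      unfold fr
      simp only
      have : ((k - 1 : ℕ) : ℝ) + 1 = k := by
        rw [Nat.cast_sub h1]
        push_cast
        ring
      rw [this]
      exact (hlog k).1 h2
    · rintro ⟨v', k', h1, rfl, rfl⟩
      refine ⟨by omega, (hlog _).2 ?_⟩
      push_cast
      exact h1
  rw [hset, finsum_mem_image]
  · have h1 : ∀ x : P × ℕ, pterm q (shx s₀ q α) γ T (x.1, x.2 + 1).1 (x.1, x.2 + 1).2 =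
        cP (shx s₀ q α) x * exp ((γ * (fr q x / T) : ℝ) * I) * (om (fr q x / T) : ℂ) := by
      intro x
      unfold pterm cP fr
      push_cast
      rfl
    simp only [h1]
    unfold gsx
    rw [tsum_eq_finsum]
    · refine finsum_congr fun x => ?_
      rw [Set.mem_setOf_eq]
      by_cases hx : fr q x ≤ Real.exp (θ * T)
      · rw [if_pos hx, finsum_eq_if, if_pos hx]
      · rw [if_neg hx, finsum_eq_if, if_neg hx]
    · refine (E.finite_fr (Real.exp (θ * T))).subset fun x hx => ?_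
      rw [Function.mem_support] at hx
      show fr q x ≤ Real.exp (θ * T)
      by_contra h
      rw [if_neg h] at hx
      exact hx rfl
  · rintro ⟨v, k⟩ _ ⟨v', k'⟩ _ h
    simp only [Prod.mk.injEq] at h ⊢
    exact ⟨h.1, by omega⟩

/-- **the law at the complex point `s₀`** -/
theorem XD.law_at [Countable P] (E : XD w q α) (s₀ : ℂ)
    (hmer : ∀ x : ℝ, 0 ≤ x → x ≤ w / 2 + 1 - s₀.re → MeromorphicAt F (s₀ + x))
    (hF : ∀ s : ℂ, w / 2 + 1 < s.re → F s = ∏' v, ∏ j, (1 - α v j * (q v : ℂ) ^ (-s))⁻¹) :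
    ∃ (m : ℤ) (r₀ : ℂ), MeromorphicAt F s₀ ∧ meromorphicOrderAt F s₀ = m ∧
      exp r₀ = meromorphicTrailingCoeffAt F s₀ ∧
      ∀ γ θ : ℝ, Real.pi / 2 < γ → w / 2 + 1 - s₀.re < θ → 0 < θ →
        Law (fun T => ∑ᶠ x ∈ {x : P × ℕ | 1 ≤ x.2 ∧ q x.1 ^ x.2 ≤ Real.exp (Real.exp (θ * T))},
          pterm q (shx s₀ q α) γ T x.1 x.2) m r₀ (Lam γ) := by
  obtain ⟨m, r₀, h0, hm, hr, hlaw⟩ := (E.gx s₀ hmer hF).law
  rw [order_shift', add_zero] at hm
  rw [coeff_shift'] at hr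
  have hmF : MeromorphicAt F s₀ := by
    have h2 : F = fun s => (fun s => F (s₀ + s)) (s - s₀) := by
      funext s
      simp
    rw [h2]
    refine MeromorphicAt.comp_analyticAt (f := fun s => F (s₀ + s))
      (g := fun w : ℂ => w - s₀) ?_ (by fun_prop)
    simpa using h0
  refine ⟨m, r₀, hmF, hm, hr, fun γ θ hγ hθ hθ0 => ?_⟩
  have h1 := hlaw γ θ hγ hθ hθ0
  have h2 : gsx (fr q) (cP (shx s₀ q α)) θ γ = fun T =>
      ∑ᶠ x ∈ {x : P × ℕ | 1 ≤ x.2 ∧ q x.1 ^ x.2 ≤ Real.exp (Real.exp (θ * T))},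
        pterm q (shx s₀ q α) γ T x.1 x.2 := by
    funext T
    exact E.gsx_eq s₀ θ γ T
  rw [h2] at h1
  exact h1

end Pool.Agent.R409.RF
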